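import Pool.Agent.Helper30.AF.Main

/-!
# Upper bounds for the optimal constant in the almost flat manifolds theorem
-/

open scoped Manifold ContDiff Topology ENNReal
open Polynomial Pool.Agent.Helper30.AF

namespace Pool.Agent.Results.MP_e7e442_gt.UpperBound

/-- The infimum of all `L` for which there is a monic integer polynomial of degree at most `n` with
constant term `1` or `-1`, without multiple roots, with some root off the unit circle, all of whose
complex roots `z` satisfy `|log |z|| ≤ L`. -/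
noncomputable def twoHouse (n : ℕ) : ℝ :=
  sInf {L : ℝ | ∃ f : ℤ[X], f.natDegree ≤ n ∧ PolyBound f L}

/-- The explicit bound: `0.24065` for `d = 3`, `0.14065` for `d = 4`, and
`0.08435 / ⌊(d - 1) / 4⌋` for `d ≥ 5`. -/
noncomputable def bound (d : ℕ) : ℝ :=
  if d = 3 then 0.24065 else if d = 4 then 0.14065 else 0.08435 / ((d - 1) / 4 : ℕ)

theorem twoHouse_le {n : ℕ} {f : ℤ[X]} {L : ℝ} (hn : f.natDegree ≤ n) (hf : PolyBound f L) :
    twoHouse n ≤ L := by
  refine csInf_le ⟨0, ?_⟩ ⟨f, hn, hf⟩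
  rintro L' ⟨g, -, -, -, -, h4, z, hz, -⟩
  exact (abs_nonneg _).trans (h4 z hz)

theorem result (d : ℕ) (hd : 3 ≤ d) :
    epsStar d ≤ ENNReal.ofReal (twoHouse (d - 1) / 2) ∧ twoHouse (d - 1) / 2 ≤ bound d := by
  obtain ⟨k1, k2, k3, ⟨ρ, hρ1, hρ⟩, ⟨b, hb1, hb⟩⟩ := rowKnum
  have key : twoHouse (d - 1) / 2 ≤ bound d := by
    unfold bound
    split_ifs with h3 h4
    · have := twoHouse_le (n := d - 1) (by rw [rowK2.2]; omega) rowK2.1
      norm_num
      linarith
    · have := twoHouse_le (n := d - 1) (by rw [(rowK3 ρ hρ1 hρ).2]; omega) (rowK3 ρ hρ1 hρ).1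
      have := k1 ρ hρ1 hρ
      norm_num
      linarith
    · have hm : 1 ≤ (d - 1) / 4 := by omega
      have h5 := rowK4 b hb1 hb ((d - 1) / 4) hm
      have h6 := twoHouse_le (n := d - 1) (by rw [h5.2]; omega) h5.1
      have h7 := k2 b hb1 hb
      have h8 : (0 : ℝ) < ((d - 1) / 4 : ℕ) := by exact_mod_cast hm
      have h9 : Real.log b / (2 * ((d - 1) / 4 : ℕ)) / 2 ≤ 0.08435 / ((d - 1) / 4 : ℕ) := by
        rw [div_div, div_le_div_iff₀ (by positivity) h8]
        nlinarith
      linarith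
  refine ⟨?_, key⟩
  have hne : {L : ℝ | ∃ f : ℤ[X], f.natDegree ≤ d - 1 ∧ PolyBound f L}.Nonempty :=
    ⟨_, X ^ 2 - X - 1, by rw [rowK2.2]; omega, rowK2.1⟩
  have h0 : ∀ L ∈ {L : ℝ | ∃ f : ℤ[X], f.natDegree ≤ d - 1 ∧ PolyBound f L},
      epsStar d ≤ ENNReal.ofReal (L / 2) := by
    rintro L ⟨f, hf, hL⟩
    exact epsStar_le f L hL (by omega)
  have hfin : epsStar d ≠ ⊤ := by
    obtain ⟨L, hL⟩ := hne
    exact ((h0 L hL).trans_lt ENNReal.ofReal_lt_top).ne
  rw [ENNReal.le_ofReal_iff_toReal_le hfin]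
  · have h1 : 2 * (epsStar d).toReal ≤ twoHouse (d - 1) := by
      refine le_csInf hne fun L hL => ?_
      have h2 := h0 L hL
      have h3 : 0 ≤ L := by
        obtain ⟨f, -, -, -, -, h4, z, hz, -⟩ := hL
        exact (abs_nonneg _).trans (h4 z hz)
      have h4 := (ENNReal.le_ofReal_iff_toReal_le hfin (by positivity)).1 h2
      linarith
    linarith
  · have h1 : 0 ≤ twoHouse (d - 1) := by
      refine le_csInf hne fun L hL => ?_
      obtain ⟨f, -, -, -, -, h4, z, hz, -⟩ := hL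
      exact (abs_nonneg _).trans (h4 z hz)
    linarith

end Pool.Agent.Results.MP_e7e442_gt.UpperBound
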